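import Mathlib
import Pool.Agent.U945.LA.Conv

/-!
# Quadratic relations between logarithms at all algebraic points of the subvarieties of a torus

Let `lam` be an `m × d` matrix of complex numbers and `V` a space of complex numbers of finite dimension
over the field of algebraic numbers.  We consider all points `x` with algebraic coordinates of the torus
`G_m^d` such that, for some logarithms `z_i` of the `x_i` (up to rational multiples of `2 π i`), the
numbers

  `lam_k1 z_1 + ⋯ + lam_kd z_d`, `k = 1, …, m`,

are sums of an element of `V` and of a linear combination with algebraic coefficients of `1` and of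
logarithms of algebraic numbers.  These points form a group `Points lam V`, which is closed under roots.
If the `lam_ki` are logarithms of primes, these are systems of relations of degree two between logarithms
(with any further terms from `V`), which contradict in general the conjecture on the algebraic
independence of logarithms.

Theorem.  The group `Points lam V` has finite rank if and only if

  (*) for every nonzero integral vector `q` one of the numbers `∑ i, lam_ki q_i` is transcendental.

(For `m = 1` and `lam_i = log p_i` with distinct primes `p_i` this holds.)  Suppose that (*) holds.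

1. The rank of `Points lam V` is at most `d ^ 2 m (dim V + m d (m d + 1))`.

2. For every algebraic subset `Z` of `G_m^d` over `ℂ` the points of `Points lam V` on `Z` are contained in
finitely many cosets of algebraic subgroups of `G_m^d`, which are contained in `Z`.

3. In particular there are only finitely many of them if `Z` contains no infinite coset, for instance if
`Z` is a curve which is not a finite union of cosets.

4. The points of `Points lam V` on a hyperplane `a_1 x_1 + ⋯ + a_d x_d = 1`, for which no subsum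
vanishes, are finite in number.

Ingredients: the hyperplane case of the linear subgroup theorem of Waldschmidt and Roy, Baker's theorem,
and the theorem on the unit equation in groups of finite rank of algebraic numbers (Laurent), which is
deduced in `Pool.Agent.U945.LA` from the unit equation over number fields (with finitely generated
groups).  This contains the earlier version over a number field, with coefficients which are linearly
independent over the algebraic numbers together with `1`, except for the finite generation there.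
-/

set_option autoImplicit false

namespace Pool.Agent.Results.MP_d171e3_nt.AlgebraicPointsOfTori

/-- The linear combinations, with algebraic coefficients, of `1` and of logarithms of algebraic
numbers. -/
noncomputable def LogForms : Submodule (algebraicClosure ℚ ℂ) ℂ :=
  Submodule.span (algebraicClosure ℚ ℂ) ({1} ∪ {z : ℂ | IsAlgebraic ℚ (Complex.exp z)})

/-- The points `x` of the torus with algebraic coordinates such that there are complex numbers `z i`,
logarithms of the `x i` up to rational multiples of `2 π i` (for some positive integer `n`, `n z_i` is a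
logarithm of `x i ^ n`), with all the numbers `∑ i, lam k i * z i` in `LogForms + V`. -/
def Points {m d : ℕ} (lam : Fin m → Fin d → ℂ) (V : Submodule (algebraicClosure ℚ ℂ) ℂ) :
    Set (Fin d → ℂˣ) :=
  {x | (∀ i, IsAlgebraic ℚ (x i : ℂ)) ∧ ∃ z : Fin d → ℂ,
    (∀ i, ∃ n : ℕ, 0 < n ∧ Complex.exp (n * z i) = (x i : ℂ) ^ n) ∧
      ∀ k, ∑ i, lam k i * z i ∈ LogForms ⊔ V}

/-- For every nonzero integral vector `q` one of the numbers `∑ i, lam k i * q i` is
transcendental. -/
def Generic {m d : ℕ} (lam : Fin m → Fin d → ℂ) : Prop :=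
  ∀ q : Fin d → ℤ, q ≠ 0 → ∃ k, Transcendental ℚ (∑ i, lam k i * q i)

/-- `Γ` contains at most `B` multiplicatively independent elements. -/
def RankAtMost {d : ℕ} (Γ : Set (Fin d → ℂˣ)) (B : ℕ) : Prop :=
  ∀ (n : ℕ) (X : Fin n → Fin d → ℂˣ), (∀ j, X j ∈ Γ) →
    (∀ k : Fin n → ℤ, ∏ j, X j ^ k j = 1 → k = 0) → n ≤ B

/-- The coset of an algebraic subgroup of the torus: the `z` such that `z ^ m = y ^ m` for all `m` in
the finite set `M` of integral vectors. -/
def Coset {d : ℕ} (y : Fin d → ℂˣ) (M : Finset (Fin d → ℤ)) : Set (Fin d → ℂˣ) :=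
  {z | ∀ m ∈ M, ∏ i, z i ^ m i = ∏ i, y i ^ m i}

/-- The algebraic subset of the torus defined by the polynomials `P j`. -/
def Zeros {d s : ℕ} (P : Fin s → MvPolynomial (Fin d) ℂ) : Set (Fin d → ℂˣ) :=
  {z | ∀ j, MvPolynomial.eval (fun i => (z i : ℂ)) (P j) = 0}

/-- **Quadratic relations between logarithms at the algebraic points of subvarieties of a torus.** -/
theorem result :
    -- examples for the condition: logarithms of primes, powers, diagonal matrices
    (∀ (d : ℕ) (p : Fin d → ℕ), (∀ i, (p i).Prime) → Function.Injective p →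
      Generic (fun (_ : Fin 1) i => (Real.log (p i) : ℂ))) ∧
    (∀ (d : ℕ) (t : ℂ), Transcendental ℚ t → Generic (fun (_ : Fin 1) (i : Fin d) => t ^ (i.1 + 1))) ∧
    (∀ (d : ℕ) (t : ℂ), Transcendental ℚ t → Generic (fun k i : Fin d => if i = k then t else 0)) ∧
    ∀ (m d : ℕ) (lam : Fin m → Fin d → ℂ) (V : Submodule (algebraicClosure ℚ ℂ) ℂ)
      [FiniteDimensional (algebraicClosure ℚ ℂ) V],
      -- the points form a group which is closed under roots
      (∃ Γ : Subgroup (Fin d → ℂˣ), (Γ : Set (Fin d → ℂˣ)) = Points lam V ∧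
        ∀ (x : Fin d → ℂˣ) (n : ℕ), 0 < n → x ^ n ∈ Γ → x ∈ Γ) ∧
      -- the condition is necessary and sufficient for finite rank
      (Generic lam ↔ ∃ B, RankAtMost (Points lam V) B) ∧
      (Generic lam →
        -- 1. the rank
        RankAtMost (Points lam V) (d ^ 2 * m *
          (Module.finrank (algebraicClosure ℚ ℂ) V + (m * d) * (m * d + 1))) ∧
        -- 2. algebraic subsets
        (∀ (s : ℕ) (P : Fin s → MvPolynomial (Fin d) ℂ),
          ∃ T : Finset ((Fin d → ℂˣ) × Finset (Fin d → ℤ)),
            (∀ t ∈ T, t.1 ∈ Points lam V ∧ Coset t.1 t.2 ⊆ Zeros P) ∧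
            ∀ x ∈ Points lam V, x ∈ Zeros P → ∃ t ∈ T, x ∈ Coset t.1 t.2) ∧
        -- 3. algebraic subsets without infinite cosets
        (∀ (s : ℕ) (P : Fin s → MvPolynomial (Fin d) ℂ),
          (∀ y M, Coset y M ⊆ Zeros P → (Coset y M).Finite) → (Points lam V ∩ Zeros P).Finite) ∧
        -- 4. hyperplanes
        (∀ a : Fin d → ℂ, {x | x ∈ Points lam V ∧ ∑ i, a i * (x i : ℂ) = 1 ∧
          ∀ J : Finset (Fin d), J.Nonempty → ∑ i ∈ J, a i * (x i : ℂ) ≠ 0}.Finite)) := by
  refine ⟨fun d p hp hinj => ?_, fun d t ht => ?_, fun d t ht => Pool.Agent.U945.LA.gen_diag ht,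
    fun m d lam V _ => ?_⟩
  · have h1 := Pool.Agent.U945.RD.indep_primes hp hinj
    have h2 : (fun i => Pool.Agent.U945.AP.lg (p i)) = fun i => ((Real.log (p i) : ℝ) : ℂ) := by
      funext i
      unfold Pool.Agent.U945.AP.lg
      norm_num
    rw [h2] at h1
    exact Pool.Agent.U945.LA.gen_of_li h1
  · exact Pool.Agent.U945.LA.gen_of_li (Pool.Agent.U945.RD.indep_pow ht d)
  have hmem : ∀ x, x ∈ Pool.Agent.U945.LA.EG lam V ↔ x ∈ Points lam V := fun _ => Iff.rfl
  have hrank : Generic lam → RankAtMost (Points lam V) (d ^ 2 * m *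
      (Module.finrank (algebraicClosure ℚ ℂ) V + (m * d) * (m * d + 1))) :=
    fun h n X hX hmi => Pool.Agent.U945.LA.rank_EG h V X hX hmi
  have two : Generic lam → ∀ (s : ℕ) (P : Fin s → MvPolynomial (Fin d) ℂ),
      ∃ T : Finset ((Fin d → ℂˣ) × Finset (Fin d → ℤ)),
        (∀ t ∈ T, t.1 ∈ Points lam V ∧ Coset t.1 t.2 ⊆ Zeros P) ∧
        ∀ x ∈ Points lam V, x ∈ Zeros P → ∃ t ∈ T, x ∈ Coset t.1 t.2 := by
    intro h s P
    obtain ⟨T, hT1, hT2⟩ := Pool.Agent.U945.LA.cosets_EG h V P
    exact ⟨T, fun t ht => ⟨(hT1 t ht).1, fun z hz => (hT1 t ht).2 z hz⟩, fun x hx hz => hT2 x hx hz⟩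
  refine ⟨⟨Pool.Agent.U945.LA.EG lam V, rfl, fun x n hn hx => Pool.Agent.U945.LA.EG_root hn hx⟩,
    ⟨fun h => ⟨_, hrank h⟩, ?_⟩, fun h => ⟨hrank h, two h, fun s P hfin => ?_, fun a => ?_⟩⟩
  · rintro ⟨B, hB⟩
    by_contra hcon
    obtain ⟨X, hX, hmi⟩ := Pool.Agent.U945.LA.not_gen hcon V (B + 1)
    have := hB _ X hX hmi
    omega
  · obtain ⟨T, hT1, hT2⟩ := two h s P
    refine (Set.Finite.biUnion T.finite_toSet fun t ht => hfin _ _ (hT1 t ht).2).subset ?_
    rintro x ⟨hx, hz⟩
    obtain ⟨t, ht, h⟩ := hT2 x hx hz
    simp only [Set.mem_iUnion]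
    exact ⟨t, ht, h⟩
  · set P : Fin 1 → MvPolynomial (Fin d) ℂ := fun _ =>
      ∑ i, MvPolynomial.C (a i) * MvPolynomial.X i - 1 with hP
    have hev : ∀ z : Fin d → ℂˣ, z ∈ Zeros P ↔ ∑ i, a i * (z i : ℂ) = 1 := by
      intro z
      have h1 : ∀ j, MvPolynomial.eval (fun i => (z i : ℂ)) (P j) = ∑ i, a i * (z i : ℂ) - 1 := by
        intro j
        rw [hP]
        simp
      constructor
      · intro hz
        have := hz 0
        rw [h1 0, sub_eq_zero] at this
        exact this
      · intro hz j
        rw [h1 j, hz, sub_self]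
    obtain ⟨T, hT1, hT2⟩ := two h 1 P
    refine (Set.Finite.biUnion T.finite_toSet (t := fun t => {x | x ∈ Coset t.1 t.2 ∧
      ∀ J : Finset (Fin d), J.Nonempty → ∑ i ∈ J, a i * (x i : ℂ) ≠ 0}) fun t ht => ?_).subset ?_
    · apply Set.Subsingleton.finite
      rintro x ⟨hx, hxn⟩ y ⟨hy, -⟩
      exact (Pool.Agent.U945.LA.nondeg a t.1 t.2
        (fun z hz => (hev z).1 ((hT1 t ht).2 hz)) x hx hxn y hy).symm
    · rintro x ⟨hx, hz, hn⟩
      obtain ⟨t, ht, h⟩ := hT2 x hx ((hev x).2 hz)
      simp only [Set.mem_iUnion]
      exact ⟨t, ht, h, hn⟩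

end Pool.Agent.Results.MP_d171e3_nt.AlgebraicPointsOfTori
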