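import Pool.Agent.S821.Pack
import Pool.Agent.R351.GD.Base

/-!
# Logarithms at ALL coprime divisors of almost all integers: no relation of growing degree over the other logarithms

Let `p_1, …, p_k` be distinct large prime factors, and more generally pairwise coprime large divisors, of an integer `m`. The
conjecture says that the numbers `log p_1, …, log p_k` are algebraically independent, also over the field generated by the
logarithms of all the other prime factors `r_1, …, r_l` of `m`, the small ones included.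

We show: for almost all integers `m`, for ALL pairwise coprime divisors `s_1, …, s_l`, `t_1, …, t_k` of `m`, where `t_i ≥ ψ(m)` and
the `s_j` are of any size, the numbers `log t_i` satisfy no nontrivial relation of degree `≤ δ` over the field generated by a
number field of degree `≤ δ`, by `log s_1, …, log s_l` and by arbitrary further complex numbers `w_1, …, w_q`. Here `ψ` tends to
infinity as slowly as we like, `δ + 2 = (log_2 min t_i) ^ (1 / C)` tends to infinity with the `t_i`, there is no bound for the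
heights of the coefficients, and `k`, `l`, `q` may be any numbers up to a function `K(m)` which tends to infinity. So the relations
of bounded degree between the logarithms of the prime factors of a typical integer can only come from its bounded prime factors.
The number of the exceptions `m ≤ N`, for `t_i ≥ y` and the degree `δ`, is at most `C (δ + 2)^C y^(-1/(δ + 2)^C) N`, uniformly in
`w`, `δ`, `y`, `N`; the same holds for the prime factors up to `N^(1/(k + l))` of the values of any polynomial.

The starting theorem `PrimeTuplesAllHeights` bounds the number of related `k`-tuples of primes up to `T` by `C T ^ (k - c)`, for a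
fixed degree. This does not suffice here: the prime factors of an integer are of very different sizes, and the bound does not
exclude that all the pairs `(p, q)` with `p ≤ q ^ (1 - c)` are related.

Proof. For fixed small divisors `s` their logarithms are additional constants; the exceptional integers with given `s` are at most
`C y^(-c) N / (s_1 ⋯ s_l)`, and the sum over all `s_i ≤ y` costs a power of `log y`; the divisors `s_i > y` can be added to the
`t_i`. For fixed constants the `t_i` are ordered by size; a related tuple has a first place where `log t_j` is related to the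
logarithms of the smaller `t_i` and to the constants. At most `q + 2` numbers in a window of length `M ^ (1/(δ + 2)^C)` are
related to `q` constants (`Pool.Agent.R351.GD.int_window`), so the number of such `t_j ≤ X` is at most `C X^(1 - 1/(δ + 2)^C)`
uniformly in the smaller ones, and the sum of `1 / (t_j ⋯ t_k)` over these minimal tuples is at most `C (δ + 2)^C y^(-c)`
(`Pool.Agent.S821.Split`, `SplitM`, `Small`, `SmallM`). The exceptions are summed over all degrees.
-/

set_option autoImplicit false

open Filter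

namespace Pool.Agent.Results.MP_d171e3_nt.CoprimeDivisors

open Module
open Pool.Agent.N826.IT.Orb (AlmostAll)
open Pool.Agent.S821.Small (LawS PairwiseCoprime RelS gen_lawS relK_move)
open Pool.Agent.R351.GD (RelK)

/-- A polynomial of total degree at most `δ` over some number field of degree at most `δ` vanishes at the numbers `w_j`,
`log s_j` and `log t_i`, but it does not vanish identically in the variables of the `log t_i` after the substitution of the
`w_j` and the `log s_j` alone. -/
def RelatedOver {q l k : ℕ} (δ : ℕ) (w : Fin q → ℂ) (s : Fin l → ℕ) (t : Fin k → ℕ) : Prop :=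
  ∃ F : IntermediateField ℚ ℂ, FiniteDimensional ℚ F ∧ finrank ℚ F ≤ δ ∧
    ∃ P : MvPolynomial ((Fin q ⊕ Fin l) ⊕ Fin k) F, P.totalDegree ≤ δ ∧
      MvPolynomial.aeval (Sum.elim (Sum.elim w fun j => (Real.log (s j) : ℂ)) fun i => (Real.log (t i) : ℂ)) P = 0 ∧
      MvPolynomial.aeval (Sum.elim (fun o => MvPolynomial.C (Sum.elim w (fun j => (Real.log (s j) : ℂ)) o))
        MvPolynomial.X) P ≠ (0 : MvPolynomial (Fin k) ℂ)

/-- the law, polynomial in the degree -/
theorem law_log (l k q : ℕ) : ∃ C : ℕ, 1 ≤ C ∧ ∀ (δ : ℕ) (w : Fin q → ℂ),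
    LawS l k (fun s t => (∃ i, t i < 1) ∨ RelatedOver δ w s t) (1 / ((δ : ℝ) + 2) ^ C) (C * ((δ : ℝ) + 2) ^ C) := by
  obtain ⟨C, hC1, hC⟩ := gen_lawS (Θ := Unit) (σ := Unit) (fun _ n _ => (Real.log (n : ℝ) : ℂ)) 1 l k q (by
    intro Q
    obtain ⟨E, hEp, -, hE⟩ := Pool.Agent.R351.GD.int_window Q
    refine ⟨Q + 2, E, hEp, fun _ δ w H n hn S hS => ?_⟩
    refine hE (Fin Q) (by rw [Fintype.card_fin]) w δ H n hn S fun s hs => ?_
    obtain ⟨h1, h2, h3, h4⟩ := hS s hs
    refine ⟨h2, h3, (Real.log (s : ℝ) : ℂ), ?_, ?_⟩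
    · rw [← Complex.ofReal_exp, Real.exp_log (by exact_mod_cast h1)]
      simp
    · have h5 : RelK δ w (fun _ : Fin 1 => (Real.log (s : ℝ) : ℂ)) :=
        relK_move h4 w (fun _ : Fin 1 => (Real.log (s : ℝ) : ℂ)) (fun _ => 0) (fun _ _ _ => rfl) (fun _ => rfl)
          fun j => ⟨Sum.inl j, rfl, fun _ h => by cases h⟩
      exact h5)
  refine ⟨C, hC1, fun δ w => (hC δ w).mono fun s t ht => ?_⟩
  rcases ht with ht | ht
  · exact Or.inl ht
  · refine Or.inr ⟨fun _ => (), fun _ => (), ?_⟩
    have h3 : RelK δ (Sum.elim w fun j => (Real.log (s j) : ℂ)) (fun i => (Real.log (t i) : ℂ)) := ht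
    refine relK_move h3 _ _ (fun i => (i, ())) (fun i j hij => (Prod.mk.inj hij).1) (fun _ => rfl) fun o => ?_
    rcases o with j | j
    · exact ⟨Sum.inl (Sum.inl j), rfl, fun _ h => by cases h⟩
    · exact ⟨Sum.inl (Sum.inr (j, ())), rfl, fun _ h => by cases h⟩

/-- an algebraic relation over `ℚ` between the logarithms is a relation over any constants -/
theorem related_of {q l k : ℕ} (w : Fin q → ℂ) (s : Fin l → ℕ) (t : Fin k → ℕ) (P : MvPolynomial (Fin k) ℚ) (hP : P ≠ 0)
    (h0 : MvPolynomial.aeval (fun i => Real.log (t i)) P = 0) : RelatedOver P.totalDegree w s t := by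
  have hd : 1 ≤ P.totalDegree := by
    rcases Nat.eq_zero_or_pos P.totalDegree with h | h
    · exfalso
      rw [MvPolynomial.totalDegree_eq_zero_iff_eq_C] at h
      rw [h, MvPolynomial.aeval_C] at h0
      have h1 : P.coeff 0 = 0 := by
        have h2 : ((P.coeff 0 : ℚ) : ℝ) = 0 := h0
        exact_mod_cast h2
      apply hP
      rw [h, h1, map_zero]
    · exact h
  refine ⟨⊥, inferInstance, ?_, MvPolynomial.rename Sum.inr (MvPolynomial.map (algebraMap ℚ _) P), ?_, ?_, ?_⟩
  · rw [IntermediateField.finrank_bot]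
    exact hd
  · exact (MvPolynomial.totalDegree_rename_le _ _).trans (Finset.sup_mono (MvPolynomial.support_map_subset _ _))
  · rw [MvPolynomial.aeval_rename, MvPolynomial.aeval_map_algebraMap]
    have h1 : MvPolynomial.aeval (Sum.elim (Sum.elim w fun j => (Real.log (s j) : ℂ)) (fun i => (Real.log (t i) : ℂ)) ∘
        Sum.inr) P = ((MvPolynomial.aeval (fun i => Real.log (t i)) P : ℝ) : ℂ) := by
      have h2 := MvPolynomial.map_aeval (fun i => Real.log (t i)) (algebraMap ℝ ℂ) P
      have h3 : (algebraMap ℝ ℂ).comp (algebraMap ℚ ℝ) = algebraMap ℚ ℂ := (IsScalarTower.algebraMap_eq ℚ ℝ ℂ).symm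
      rw [h3] at h2
      exact h2.symm
    rw [h1, h0, Complex.ofReal_zero]
  · rw [MvPolynomial.aeval_rename, MvPolynomial.aeval_map_algebraMap]
    intro h1
    apply hP
    have h2 : (MvPolynomial.map (algebraMap ℚ ℂ) P : MvPolynomial (Fin k) ℂ) = 0 := by
      rw [← h1]
      have h3 : (Sum.elim (fun o => MvPolynomial.C (Sum.elim w (fun j => (Real.log (s j) : ℂ)) o))
          MvPolynomial.X ∘ Sum.inr : Fin k → MvPolynomial (Fin k) ℂ) = MvPolynomial.X := rfl
      rw [h3]
      exact ((MvPolynomial.aeval_map_algebraMap ℂ (MvPolynomial.X : Fin k → MvPolynomial (Fin k) ℂ) P).symm.trans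
        (MvPolynomial.aeval_X_left_apply _)).symm
    exact MvPolynomial.map_injective _ (algebraMap ℚ ℂ).injective (h2.trans (map_zero _).symm)

/-- **All coprime divisors of almost all integers.** There is a function `C(l, k, q)` with the following properties.

(1) For all `l`, `k`, `q`, `δ`, all `w ∈ ℂ^q` and all `y, N ≥ 1`: for all integers `m ≤ N` but at most
`C (δ + 2)^C y^(-1/(δ + 2)^C) N`, for ALL pairwise coprime divisors `s_1, …, s_l`, `t_1, …, t_k` of `m` with `t_i ≥ y` there is no
relation of degree at most `δ` over a number field of degree at most `δ` between the numbers `w_j`, `log s_j` and `log t_i` which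
is nontrivial in the `log t_i`.

(2) For every integral polynomial `f ≠ 0` and `l`, `k`, `q` there is `C'` such that for all `δ`, `w`, `y, N ≥ 1`, for all
integers `m ≤ N` but at most `C' (δ + 2)^C y^(-1/(δ + 2)^C) N`, the same is true for all distinct prime factors `s_1, …, s_l`,
`t_1, …, t_k` of `f(m)` with `s_j, t_i ≤ N^(1/(l + k))`, `t_i ≥ y`.

(3) Let `w_0, w_1, …` be any complex numbers. For every function `ψ` which tends to infinity there is a function `K` which tends
to infinity such that for almost all `m`, for all `l, k, q ≤ K(m)`, `k ≥ 1`, all `δ` and all pairwise coprime divisors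
`s_1, …, s_l`, `t_1, …, t_k` of `m` with `t_i ≥ ψ(m)` and `t_i ≥ 2^((δ + 2)^C)` there is no relation as in (1) with the first `q`
numbers `w`.

(4) If a nonzero rational polynomial of degree `δ` vanishes at `(log t_1, …, log t_k)`, this is a relation as in (1), for all `w`
and `s`. -/
theorem result : ∃ C : ℕ → ℕ → ℕ → ℕ,
    (∀ (l k q δ : ℕ) (w : Fin q → ℂ) (y N : ℕ), 1 ≤ y → 1 ≤ N →
        ({m : ℕ | 1 ≤ m ∧ m ≤ N ∧ ∃ (s : Fin l → ℕ) (t : Fin k → ℕ), (∀ i, s i ∣ m) ∧ (∀ i, t i ∣ m ∧ y ≤ t i) ∧
          PairwiseCoprime s t ∧ RelatedOver δ w s t}.ncard : ℝ) ≤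
          C l k q * ((δ : ℝ) + 2) ^ C l k q * (y : ℝ) ^ (-(1 / ((δ : ℝ) + 2) ^ C l k q)) * N) ∧
    (∀ f : Polynomial ℤ, f ≠ 0 → ∀ l k q : ℕ, ∃ C' : ℝ, ∀ (δ : ℕ) (w : Fin q → ℂ) (y N : ℕ), 1 ≤ y → 1 ≤ N →
        ({m : ℕ | 1 ≤ m ∧ m ≤ N ∧ ∃ (s : Fin l → ℕ) (t : Fin k → ℕ),
          (∀ i, (s i).Prime ∧ (s i : ℤ) ∣ f.eval (m : ℤ) ∧ s i ^ (l + k) ≤ N) ∧
          (∀ i, (t i).Prime ∧ (t i : ℤ) ∣ f.eval (m : ℤ) ∧ y ≤ t i ∧ t i ^ (l + k) ≤ N) ∧ PairwiseCoprime s t ∧
          RelatedOver δ w s t}.ncard : ℝ) ≤
          C' * ((δ : ℝ) + 2) ^ C l k q * (y : ℝ) ^ (-(1 / ((δ : ℝ) + 2) ^ C l k q)) * N) ∧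
    (∀ (w : ℕ → ℂ) (ψ : ℕ → ℕ), Tendsto ψ atTop atTop →
      ∃ K : ℕ → ℕ, Tendsto K atTop atTop ∧ AlmostAll (fun m => ∀ l ≤ K m, ∀ k ≤ K m, 1 ≤ k → ∀ q ≤ K m, ∀ (δ : ℕ)
        (s : Fin l → ℕ) (t : Fin k → ℕ), (∀ i, s i ∣ m) → (∀ i, t i ∣ m ∧ ψ m ≤ t i ∧ 2 ^ ((δ + 2) ^ C l k q) ≤ t i) →
          PairwiseCoprime s t → ¬ RelatedOver δ (fun j : Fin q => w j) s t)) ∧
    (∀ (l k q : ℕ) (w : Fin q → ℂ) (s : Fin l → ℕ) (t : Fin k → ℕ) (P : MvPolynomial (Fin k) ℚ), P ≠ 0 →
      MvPolynomial.aeval (fun i => Real.log (t i)) P = 0 → RelatedOver P.totalDegree w s t) := by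
  obtain ⟨C, h1, h2, h3⟩ := Pool.Agent.S821.Pack.pack (n₀ := 1) (fun l k q δ w s t => RelatedOver (l := l) (k := k)
    (q := q) δ w s t) law_log
  exact ⟨C, h1, h2, h3, fun l k q w s t P hP h0 => related_of w s t P hP h0⟩

end Pool.Agent.Results.MP_d171e3_nt.CoprimeDivisors
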