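import Pool.Agent.U831.MU.Scale

/-!
# Polynomials in logarithms of primes: the exceptional ones do not determine any logarithm

Let `p_1, …, p_m` be natural numbers, for instance distinct primes, and `F` a finite set of integer polynomials in `m` variables. If
the logarithms are those of distinct primes and are algebraically independent then `f(log p_1, …, log p_m)` is
transcendental for all nonconstant `f` in `F`; at present this is known for polynomials in one linear
form, while for instance the number `log 2 log 3` is not known to be irrational. A number `x` is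
good at the scale `N` if for ALL nonconstant integer polynomials `P` of degree at most `D` with
coefficients at most `N ^ c` the multiples `n P(x)`, `n < N`, are equidistributed modulo one with
discrepancy `N ^ (-c)`. Algebraic numbers of degree at most `D` are good at no large scale.

We show: for all `F, D, M` there is `c > 0` such that for every large `X` there is a subset `S` of
`F` such that

* the logarithm of EVERY positive rational number `r ≠ 1` (and `π`, and `e`) is transcendental over
  the field generated by the numbers `f(log p_1, …, log p_m)`, `f ∈ S`;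
* for ALL `f ∈ F` which are not in `S` the number `f(log p_1, …, log p_m)` is good at ALL scales
  `N` between `X` and `X ^ M`;
* `S` contains all `f ∈ F` with `f(log p_1, …, log p_m)` algebraic of degree at most `D`.

So the exceptional values generate a field which contains no nonconstant polynomial in the logarithm
of a rational number, and nothing over which such a logarithm is algebraic. For instance, on each
range of scales one of the three numbers `log 2 log 3`, `log 3 log 5`, `log 5 log 2` is good (the
product of two of them divided by the third one is the square of a logarithm), and for every `f` at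
most one of the numbers `f + g(log r)`, `g` in a finite set of integer polynomials without constant
terms, is exceptional.

The proof: a number which is not good is close to an algebraic number of degree at most `D` and small
height. The real numbers which have very good algebraic approximations of bounded degree at the
scales of a given sequence form a field which is algebraically closed in `ℝ`
(`Pool.Agent.U831.MU.aaField`, `Aa.closed`; integer matrices which act approximately on a vector of
monomials), and numbers with a transcendence measure, such as logarithms of rational numbers, are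
not in it.
-/

set_option autoImplicit false

namespace Pool.Agent.Results.MP_d171e3_nt.ExceptionalPolynomialsInLogs

open Polynomial

/-- The number of `n < N` with the fractional part of `n α + γ` in `[u, v)`. -/
noncomputable def count (α γ u v : ℝ) (N : ℕ) : ℕ :=
  ((Finset.range N).filter fun n : ℕ =>
    u ≤ Int.fract (n * α + γ) ∧ Int.fract (n * α + γ) < v).card

/-- The sequence `n α + γ` (`n < N`) modulo one has discrepancy at most `Δ`, for every shift `γ`. -/
def DiscrepancyLe (α : ℝ) (N : ℕ) (Δ : ℝ) : Prop :=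
  ∀ γ u v : ℝ, 0 ≤ u → u ≤ v → v ≤ 1 → |(count α γ u v N : ℝ) - (v - u) * N| ≤ Δ * N

/-- `x` is good at the scale `N`: the multiples of all the numbers `f(x)`, where `f` is a
nonconstant integer polynomial of degree at most `D` with coefficients at most `N ^ c`, are
equidistributed with discrepancy at most `N ^ (-c)`. -/
def Good (D : ℕ) (c : ℝ) (N : ℕ) (x : ℝ) : Prop :=
  ∀ f : ℤ[X], 1 ≤ f.natDegree → f.natDegree ≤ D → (∀ k, |(f.coeff k : ℝ)| ≤ (N : ℝ) ^ c) →
    DiscrepancyLe (aeval x f) N ((N : ℝ) ^ (-c))

/-- All logarithms of positive rational numbers are transcendental over the field generated by the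
values of the exceptional polynomials at the logarithms of given natural numbers (primes), on every
long range of scales. -/
theorem main (m : ℕ) (p : Fin m → ℕ)
    (F : Finset (MvPolynomial (Fin m) ℤ)) (D : ℕ) (M : ℝ) (hM : 2 ≤ M) :
    ∃ c : ℝ, 0 < c ∧ ∃ X₀ : ℝ, ∀ X : ℝ, X₀ ≤ X → ∃ S : Finset (MvPolynomial (Fin m) ℤ), S ⊆ F ∧
      (∀ x : ℝ, (x = Real.exp 1 ∨ x = Real.pi ∨ ∃ r : ℚ, 0 < r ∧ r ≠ 1 ∧ x = Real.log r) →
        Transcendental (Subfield.closure ((fun f : MvPolynomial (Fin m) ℤ =>
          MvPolynomial.aeval (fun i : Fin m => Real.log (p i)) f) ''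
            (S : Set (MvPolynomial (Fin m) ℤ)))) x) ∧
      (∀ f ∈ F, (∃ P : ℤ[X], P ≠ 0 ∧ P.natDegree ≤ D ∧
        aeval (MvPolynomial.aeval (fun i : Fin m => Real.log (p i)) f) P = 0) → f ∈ S) ∧
      ∀ f ∈ F, f ∉ S → ∀ N : ℕ, X ≤ N → (N : ℝ) ≤ X ^ M →
        Good D c N (MvPolynomial.aeval (fun i : Fin m => Real.log (p i)) f) := by
  classical
  obtain ⟨c, hc, X₀, h⟩ := Pool.Agent.U831.MU.field_engine F
    (fun f : MvPolynomial (Fin m) ℤ =>
      (MvPolynomial.aeval (fun i : Fin m => Real.log (p i)) f : ℝ)) D M hM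
  refine ⟨c, hc, X₀, fun X hX => ?_⟩
  obtain ⟨S, hSF, h1, h2, h3⟩ := h X hX
  refine ⟨S, hSF, fun x hx => h1 x ?_, h2, h3⟩
  rcases hx with rfl | rfl | ⟨r, hr, hr1, rfl⟩
  · exact Pool.Agent.TH456.TM.measT_e
  · exact Pool.Agent.TH456.TM.measT_pi
  · exact Pool.Agent.TH456.TM.measT_real_log r hr hr1

/-- Products of two logarithms: of `log a log b`, `log b log c`, `log c log a` one is good at all
scales between `X` and `X ^ M`. -/
theorem products (a b c : ℕ) (ha : 2 ≤ a) (hb : 2 ≤ b) (hc : 2 ≤ c) (D : ℕ) (M : ℝ) (hM : 2 ≤ M) :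
    ∃ δ : ℝ, 0 < δ ∧ ∃ X₀ : ℝ, ∀ X : ℝ, X₀ ≤ X →
      (∀ N : ℕ, X ≤ N → (N : ℝ) ≤ X ^ M → Good D δ N (Real.log a * Real.log b)) ∨
      (∀ N : ℕ, X ≤ N → (N : ℝ) ≤ X ^ M → Good D δ N (Real.log b * Real.log c)) ∨
      (∀ N : ℕ, X ≤ N → (N : ℝ) ≤ X ^ M → Good D δ N (Real.log c * Real.log a)) := by
  classical
  have hlog : ∀ n : ℕ, 2 ≤ n → Real.log n ≠ 0 := by
    intro n hn
    have h1 : (1 : ℝ) < n := by exact_mod_cast (by omega : 1 < n)
    exact (Real.log_pos h1).ne'
  have hA := hlog a ha
  have hB := hlog b hb
  have hC := hlog c hc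
  let f01 : MvPolynomial (Fin 3) ℤ := MvPolynomial.X 0 * MvPolynomial.X 1
  let f12 : MvPolynomial (Fin 3) ℤ := MvPolynomial.X 1 * MvPolynomial.X 2
  let f20 : MvPolynomial (Fin 3) ℤ := MvPolynomial.X 2 * MvPolynomial.X 0
  let p : Fin 3 → ℕ := ![a, b, c]
  have e01 : (MvPolynomial.aeval (fun i : Fin 3 => Real.log (p i)) f01 : ℝ) =
      Real.log a * Real.log b := by simp [f01, p]
  have e12 : (MvPolynomial.aeval (fun i : Fin 3 => Real.log (p i)) f12 : ℝ) =
      Real.log b * Real.log c := by simp [f12, p]
  have e20 : (MvPolynomial.aeval (fun i : Fin 3 => Real.log (p i)) f20 : ℝ) =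
      Real.log c * Real.log a := by simp [f20, p]
  obtain ⟨δ, hδ, X₀, h⟩ := main 3 p {f01, f12, f20} D M hM
  refine ⟨δ, hδ, X₀, fun X hX => ?_⟩
  obtain ⟨S, hSF, h1, h2, h3⟩ := h X hX
  by_cases m1 : f01 ∈ S
  · by_cases m2 : f12 ∈ S
    · by_cases m3 : f20 ∈ S
      · exfalso
        have ht := h1 (Real.log a) (Or.inr (Or.inr ⟨a, by exact_mod_cast (by omega : 0 < a),
          by exact_mod_cast (by omega : a ≠ 1), by push_cast; rfl⟩))
        apply ht
        set K := Subfield.closure ((fun f : MvPolynomial (Fin 3) ℤ =>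
          (MvPolynomial.aeval (fun i : Fin 3 => Real.log (p i)) f : ℝ)) ''
            (S : Set (MvPolynomial (Fin 3) ℤ))) with hK
        have g : ∀ f ∈ S, (MvPolynomial.aeval (fun i : Fin 3 => Real.log (p i)) f : ℝ) ∈ K :=
          fun f hf => Subfield.subset_closure ⟨f, hf, rfl⟩
        have k1 := g _ m1
        have k2 := g _ m2
        have k3 := g _ m3
        rw [e01] at k1
        rw [e12] at k2
        rw [e20] at k3
        have k4 : Real.log a ^ 2 ∈ K := by
          have h5 := K.div_mem (K.mul_mem k1 k3) k2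
          have h6 : Real.log a * Real.log b * (Real.log c * Real.log a) /
              (Real.log b * Real.log c) = Real.log a ^ 2 := by
            field_simp
          rwa [h6] at h5
        refine ⟨Polynomial.X ^ 2 - Polynomial.C (⟨Real.log a ^ 2, k4⟩ : K), ?_, ?_⟩
        · exact (Polynomial.monic_X_pow_sub_C _ (by norm_num)).ne_zero
        · simp only [map_sub, map_pow, Polynomial.aeval_X, Polynomial.aeval_C]
          change Real.log a ^ 2 - Real.log a ^ 2 = 0
          exact sub_self _
      · right; right
        intro N hN1 hN2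
        have h4 := h3 f20 (by simp) m3 N hN1 hN2
        rwa [e20] at h4
    · right; left
      intro N hN1 hN2
      have h4 := h3 f12 (by simp) m2 N hN1 hN2
      rwa [e12] at h4
  · left
    intro N hN1 hN2
    have h4 := h3 f01 (by simp) m1 N hN1 hN2
    rwa [e01] at h4

theorem result :
    -- all logarithms of rational numbers are transcendental over the field generated by the values
    -- of the exceptional polynomials
    (∀ (m : ℕ) (p : Fin m → ℕ) (F : Finset (MvPolynomial (Fin m) ℤ)) (D : ℕ) (M : ℝ), 2 ≤ M →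
      ∃ c : ℝ, 0 < c ∧ ∃ X₀ : ℝ, ∀ X : ℝ, X₀ ≤ X → ∃ S : Finset (MvPolynomial (Fin m) ℤ), S ⊆ F ∧
        (∀ x : ℝ, (x = Real.exp 1 ∨ x = Real.pi ∨ ∃ r : ℚ, 0 < r ∧ r ≠ 1 ∧ x = Real.log r) →
          Transcendental (Subfield.closure ((fun f : MvPolynomial (Fin m) ℤ =>
            MvPolynomial.aeval (fun i : Fin m => Real.log (p i)) f) ''
              (S : Set (MvPolynomial (Fin m) ℤ)))) x) ∧
        (∀ f ∈ F, (∃ P : ℤ[X], P ≠ 0 ∧ P.natDegree ≤ D ∧
          aeval (MvPolynomial.aeval (fun i : Fin m => Real.log (p i)) f) P = 0) → f ∈ S) ∧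
        ∀ f ∈ F, f ∉ S → ∀ N : ℕ, X ≤ N → (N : ℝ) ≤ X ^ M →
          Good D c N (MvPolynomial.aeval (fun i : Fin m => Real.log (p i)) f)) ∧
    -- products of two logarithms
    (∀ a b c : ℕ, 2 ≤ a → 2 ≤ b → 2 ≤ c → ∀ (D : ℕ) (M : ℝ), 2 ≤ M →
      ∃ δ : ℝ, 0 < δ ∧ ∃ X₀ : ℝ, ∀ X : ℝ, X₀ ≤ X →
        (∀ N : ℕ, X ≤ N → (N : ℝ) ≤ X ^ M → Good D δ N (Real.log a * Real.log b)) ∨
        (∀ N : ℕ, X ≤ N → (N : ℝ) ≤ X ^ M → Good D δ N (Real.log b * Real.log c)) ∨
        (∀ N : ℕ, X ≤ N → (N : ℝ) ≤ X ^ M → Good D δ N (Real.log c * Real.log a))) :=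
  ⟨main, products⟩

end Pool.Agent.Results.MP_d171e3_nt.ExceptionalPolynomialsInLogs
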