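import Mathlib
import Pool.Agent.U945.RD.Low

/-!
# Quadratic relations between the logarithms of primes which divide the values of rational functions

Let `r_1 = P_1 / Q_1, …, r_d = P_d / Q_d` be rational functions with rational coefficients which have
together at least three different zeros and poles on the projective line over `ℂ` (for instance
`X` and `X - 1`, or only `X ^ 2 + 1`).  For a rational number `q` the number `log |r_i(q)|` is an
integral linear combination of logarithms of primes.  We show that the number

  `f(q) = λ_1 log |r_1(q)| + ⋯ + λ_d log |r_d(q)|`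

is, for all but finitely many rational numbers `q`, not in a given finite dimensional space, not even
modulo linear forms in logarithms.

1. Let `1, λ_1, …, λ_d` be complex numbers which are linearly independent over the field of algebraic
   numbers, and let `V` be a space of complex numbers of finite dimension over this field.  There are
   only finitely many rational numbers `q` such that `f(q)` is the sum of an element of `V` and of a
   linear combination, with algebraic coefficients, of `1` and of logarithms of algebraic numbers.

2. This holds in particular for the quadratic polynomials in logarithms of primes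
   `f(q) = ∑ log p_i log |r_i(q)|`, where `p_1, …, p_d` are distinct primes.  For instance
   `log 2 log |q| + log 3 log |q - 1|` is transcendental, and moreover not a linear form in logarithms
   with algebraic coefficients, for all but finitely many rational numbers `q`.

3. It also holds for `f(q) = ∑ t ^ i log |r_i(q)|`, where `t` is any transcendental number, for
   instance the logarithm of a prime.  These are polynomials in logarithms of primes of arbitrary
   degree.

4. The condition on the zeros and poles cannot be omitted: if the `r_i` have together at most two zeros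
   and poles, then for all `λ_1, …, λ_d` there is a space `V` of finite dimension which contains `f(q)`
   for infinitely many rational numbers `q`.
-/

set_option autoImplicit false

namespace Pool.Agent.Results.MP_d171e3_nt.ValuesOfRationalFunctions

open Polynomial

/-- The number of different zeros and poles of the rational functions `P i / Q i` together, on the
projective line over `ℂ`, if `P i` and `Q i` are nonzero and coprime for all `i`: the number of the
complex roots of the product of all `P i` and `Q i`, without multiplicity, plus one if the degrees of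
`P i` and `Q i` are different for some `i` (the point at infinity). -/
noncomputable def points {d : ℕ} (P Q : Fin d → ℚ[X]) : ℕ :=
  ((∏ i, (P i * Q i)).map (algebraMap ℚ ℂ)).roots.toFinset.card +
    if ∀ i, (P i).natDegree = (Q i).natDegree then 0 else 1

/-- The linear combinations, with algebraic coefficients, of `1` and of logarithms of algebraic
numbers. -/
noncomputable def LogForms : Submodule (algebraicClosure ℚ ℂ) ℂ :=
  Submodule.span (algebraicClosure ℚ ℂ) ({1} ∪ {z : ℂ | IsAlgebraic ℚ (Complex.exp z)})

/-- The rational numbers `q` such that no `P i` and no `Q i` vanishes at `q` and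
`∑ i, lam i * log |P i (q) / Q i (q)|` is in `W`. -/
def Exceptional {d : ℕ} (P Q : Fin d → ℚ[X]) (lam : Fin d → ℂ)
    (W : Submodule (algebraicClosure ℚ ℂ) ℂ) : Set ℚ :=
  {q : ℚ | (∀ i, (P i).eval q ≠ 0 ∧ (Q i).eval q ≠ 0) ∧
    ∑ i, lam i * (Real.log |(((P i).eval q / (Q i).eval q : ℚ) : ℝ)| : ℂ) ∈ W}

theorem exceptional_eq {d : ℕ} (P Q : Fin d → ℚ[X]) (lam : Fin d → ℂ)
    (W : Submodule (algebraicClosure ℚ ℂ) ℂ) : Exceptional P Q lam W =
    {q : ℚ | (∀ i, (P i).eval q ≠ 0 ∧ (Q i).eval q ≠ 0) ∧
      ∑ i, lam i * Pool.Agent.U945.AP.lg |(P i).eval q / (Q i).eval q| ∈ W} := by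
  unfold Exceptional Pool.Agent.U945.AP.lg
  simp only [Rat.cast_abs]

/-- **Linear combinations of the logarithms of the values of rational functions.** -/
theorem result {d : ℕ} (P Q : Fin d → ℚ[X]) (hP : ∀ i, P i ≠ 0) (hQ : ∀ i, Q i ≠ 0)
    (hPQ : ∀ i, IsCoprime (P i) (Q i)) :
    (3 ≤ points P Q → ∀ V : Submodule (algebraicClosure ℚ ℂ) ℂ,
      FiniteDimensional (algebraicClosure ℚ ℂ) V →
      (∀ lam : Fin d → ℂ,
        LinearIndependent (algebraicClosure ℚ ℂ) (Fin.cons 1 lam : Fin (d + 1) → ℂ) →
        (Exceptional P Q lam (LogForms ⊔ V)).Finite) ∧
      (∀ p : Fin d → ℕ, (∀ i, (p i).Prime) → Function.Injective p →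
        (Exceptional P Q (fun i => (Real.log (p i) : ℂ)) (LogForms ⊔ V)).Finite) ∧
      (∀ t : ℂ, Transcendental ℚ t →
        (Exceptional P Q (fun i => t ^ (i.1 + 1)) (LogForms ⊔ V)).Finite)) ∧
    (points P Q < 3 → ∀ lam : Fin d → ℂ, ∃ V : Submodule (algebraicClosure ℚ ℂ) ℂ,
      FiniteDimensional (algebraicClosure ℚ ℂ) V ∧ (Exceptional P Q lam V).Infinite) := by
  refine ⟨fun h3 V hV => ?_, fun h3 lam => ?_⟩
  · have key : ∀ lam : Fin d → ℂ,
        LinearIndependent (algebraicClosure ℚ ℂ) (Fin.cons 1 lam : Fin (d + 1) → ℂ) →
        (Exceptional P Q lam (LogForms ⊔ V)).Finite := by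
      intro lam hlam
      rw [exceptional_eq]
      exact Pool.Agent.U945.RD.finite_values hP hQ hPQ
        (e := if ∀ i, (P i).natDegree = (Q i).natDegree then 0 else 1)
        (by split_ifs <;> omega) (fun h => if_pos h) h3 hlam V
    refine ⟨key, fun p hp hinj => ?_, fun t ht => ?_⟩
    · apply key
      have h1 := Pool.Agent.U945.RD.indep_primes hp hinj
      have h2 : (fun i => Pool.Agent.U945.AP.lg (p i)) = fun i => ((Real.log (p i) : ℝ) : ℂ) := by
        funext i
        unfold Pool.Agent.U945.AP.lg
        norm_num
      rw [h2] at h1
      exact h1
    · exact key _ (Pool.Agent.U945.RD.indep_pow ht d)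
  · obtain ⟨V, hV, h4⟩ := Pool.Agent.U945.RD.low_infinite hP hQ hPQ
      (e := if ∀ i, (P i).natDegree = (Q i).natDegree then 0 else 1)
      (fun h i => by
        by_contra hne
        rw [if_neg (fun hall => hne (hall i))] at h
        exact one_ne_zero h) h3 lam
    refine ⟨V, hV, ?_⟩
    rw [exceptional_eq]
    exact h4

end Pool.Agent.Results.MP_d171e3_nt.ValuesOfRationalFunctions
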